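import Mathlib

set_option autoImplicit false

namespace Pool.Agent.Results.MP_bb4aa0_pr.Book5

open Finset SimpleGraph

open Classical in
/-- Forests of `G` with exactly `|V| - k` edges (i.e. `k` components). -/
noncomputable def forests {V : Type} [Fintype V] (G : SimpleGraph V) (k : ℕ) :
    Finset (Finset (Sym2 V)) :=
  G.edgeFinset.powerset.filter
    (fun F => (fromEdgeSet (F : Set (Sym2 V))).IsAcyclic ∧ F.card = Fintype.card V - k)

open Classical in
/-- `UF_k[ω(e) = 1]`. -/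
noncomputable def UF {V : Type} [Fintype V] (G : SimpleGraph V) (k : ℕ) (e : Sym2 V) : ℚ :=
  (((forests G k).filter (fun F => e ∈ F)).card : ℚ) / (forests G k).card

lemma acyclic_of_rank {V : Type} (G : SimpleGraph V) (r : V → ℕ)
    (h1 : ∀ u v, G.Adj u v → r u ≠ r v)
    (h2 : ∀ u v w, G.Adj u v → G.Adj u w → r v < r u → r w < r u → v = w) : G.IsAcyclic := by
  classical
  intro x c hc
  obtain ⟨u, hu, hmax⟩ := exists_max_image c.support.toFinset r ⟨x, by simp⟩
  rw [List.mem_toFinset] at hu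
  obtain ⟨v, w, hne, h⟩ := Set.ncard_eq_two.1 (hc.ncard_neighborSet_toSubgraph_eq_two hu)
  have key : ∀ y ∈ c.toSubgraph.neighborSet u, G.Adj u y ∧ r y < r u := by
    intro y hy
    have a := c.toSubgraph.adj_sub hy
    have b := hmax y (List.mem_toFinset.2 (c.mem_verts_toSubgraph.1 (c.toSubgraph.edge_vert hy.symm)))
    exact ⟨a, lt_of_le_of_ne b (h1 u y a).symm⟩
  have a := key v (by rw [h]; simp)
  have b := key w (by rw [h]; simp)
  exact hne (h2 u v w a.1 b.1 a.2 b.2)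

def EE : Finset (Sym2 (Fin 7)) :=
  {s(5, 6), s(0, 5), s(1, 5), s(2, 5), s(3, 5), s(4, 5), s(0, 6), s(1, 6), s(2, 6), s(3, 6), s(4, 6)}

def H : SimpleGraph (Fin 7) := fromEdgeSet (EE : Set (Sym2 (Fin 7)))

def both (F : Finset (Sym2 (Fin 7))) : Finset (Fin 7) :=
  ({0, 1, 2, 3, 4} : Finset (Fin 7)).filter (fun i => s(i, 5) ∈ F ∧ s(i, 6) ∈ F)

def P (F : Finset (Sym2 (Fin 7))) : Prop := (both F).card ≤ if s(5, 6) ∈ F then 0 else 1

instance : DecidablePred P := fun F => inferInstanceAs (Decidable (_ ≤ _))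

lemma acyc_iff (F : Finset (Sym2 (Fin 7))) (hF : F ⊆ EE) :
    (fromEdgeSet (F : Set (Sym2 (Fin 7)))).IsAcyclic ↔ P F := by
  have hb : ∀ i ∈ both F, i ≠ 5 ∧ i ≠ 6 ∧ s(i, 5) ∈ F ∧ s(i, 6) ∈ F := by
    intro i hi
    obtain ⟨h1, h2⟩ := mem_filter.1 hi
    refine ⟨?_, ?_, h2⟩ <;> rintro rfl <;> simp at h1
  constructor
  · intro h
    have hp := isAcyclic_iff_path_unique.1 h
    have mk : ∀ i ∈ both F, ∃ p : (fromEdgeSet (F : Set (Sym2 (Fin 7)))).Path 5 6,
        p.1.support = [5, i, 6] := by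
      intro i hi
      obtain ⟨h1, h2, h3, h4⟩ := hb i hi
      refine ⟨⟨.cons (v := i) (by simp [fromEdgeSet_adj, Sym2.eq_swap, h3, h1.symm])
        (.cons (by simp [fromEdgeSet_adj, h4, h2]) .nil), ?_⟩, by simp⟩
      simp [Walk.isPath_def, h1.symm, h2]
    unfold P
    split_ifs with h56
    · rw [Nat.le_zero, card_eq_zero, eq_empty_iff_forall_notMem]
      intro i hi
      obtain ⟨p, e⟩ := mk i hi
      rw [hp p (Path.singleton (by simp [fromEdgeSet_adj, h56]))] at e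
      simp [Path.singleton] at e
    · rw [card_le_one]
      intro i hi j hj
      obtain ⟨p, e⟩ := mk i hi
      obtain ⟨q, e'⟩ := mk j hj
      rw [hp p q, e'] at e
      simpa using e.symm
  · intro h
    have hE : ∀ u v : Fin 7, s(u, v) ∈ EE → (u = 5 ∧ v = 6) ∨ (u = 6 ∧ v = 5) ∨
        ((u = 5 ∨ u = 6) ∧ v ∈ ({0, 1, 2, 3, 4} : Finset (Fin 7))) ∨
        ((v = 5 ∨ v = 6) ∧ u ∈ ({0, 1, 2, 3, 4} : Finset (Fin 7))) := by decide
    have hl : ∀ u ∈ ({0, 1, 2, 3, 4} : Finset (Fin 7)), u ≠ 5 ∧ u ≠ 6 := by decide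
    have hm : ∀ u, u ∈ both F ↔
        u ∈ ({0, 1, 2, 3, 4} : Finset (Fin 7)) ∧ s(u, 5) ∈ F ∧ s(u, 6) ∈ F := fun u => mem_filter
    have h1 : ∀ i ∈ both F, s(5, 6) ∉ F := by
      intro i hi h56
      unfold P at h
      rw [if_pos h56, Nat.le_zero, card_eq_zero] at h
      simp [h] at hi
    have h2 : ∀ i ∈ both F, ∀ j ∈ both F, i = j := by
      refine card_le_one.1 (le_trans h ?_)
      split_ifs <;> omega
    have sw : ∀ u v : Fin 7, s(u, v) ∈ F → s(v, u) ∈ F := fun u v h => Sym2.eq_swap ▸ h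
    refine acyclic_of_rank _ (fun v => if v = 5 then 0 else if v = 6 then 2 else
      if v ∈ both F then 1 else 3) (fun u v h => ?_) (fun u v w h h' => ?_)
    · have := hE u v (hF h.1)
      grind
    · have a : s(u, v) ∈ F := h.1
      have b : s(u, w) ∈ F := h'.1
      have := hE u v (hF a)
      have := hE u w (hF b)
      have := sw _ _ a
      have := sw _ _ b
      grind

lemma forests_eq (k : ℕ) : forests H k = (powersetCard (7 - k) EE).filter P := by
  have hE : ∀ e, e ∈ H.edgeSet ↔ e ∈ EE := by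
    intro e
    have : ∀ e ∈ EE, ¬ e.IsDiag := by decide
    simp only [H, edgeSet_fromEdgeSet, Set.mem_diff, mem_coe, Sym2.mem_diagSet]
    exact ⟨fun h => h.1, fun h => ⟨h, this e h⟩⟩
  ext F
  simp only [forests, mem_filter, mem_powerset, mem_powersetCard, Fintype.card_fin, subset_iff,
    mem_edgeFinset, hE]
  constructor
  · rintro ⟨a, b, c⟩; exact ⟨⟨a, c⟩, (acyc_iff F a).1 b⟩
  · rintro ⟨⟨a, c⟩, b⟩; exact ⟨a, (acyc_iff F a).2 b, c⟩

lemma c1 : ((powersetCard 6 EE).filter P).card = 112 ∧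
    (((powersetCard 6 EE).filter P).filter (fun F => s(5, 6) ∈ F)).card = 32 := by decide +kernel

lemma c2 : ((powersetCard 5 EE).filter P).card = 272 ∧
    (((powersetCard 5 EE).filter P).filter (fun F => s(5, 6) ∈ F)).card = 80 := by decide +kernel

theorem result : ∃ (n : ℕ) (G : SimpleGraph (Fin n)) (e : Sym2 (Fin n)) (k : ℕ),
    G.Connected ∧ e ∈ G.edgeSet ∧ 1 ≤ k ∧ k < n ∧ UF G k e < UF G (k + 1) e := by
  refine ⟨7, H, s(5, 6), 1, ?_, ?_, le_rfl, by norm_num, ?_⟩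
  · have : ∀ v : Fin 7, v = 5 ∨ (s(v, 5) ∈ EE ∧ v ≠ 5) := by decide
    have h : ∀ v, H.Reachable v 5 := fun v => by
      rcases this v with rfl | h
      · rfl
      · exact Adj.reachable h
    exact ⟨fun u v => (h u).trans (h v).symm⟩
  · exact (fromEdgeSet_adj _).2 ⟨mem_coe.2 (by decide), by decide⟩
  · have a := c1
    have b := c2
    unfold UF
    rw [forests_eq, forests_eq]
    have e1 : ∀ S : Finset (Finset (Sym2 (Fin 7))),
        @Finset.filter _ (fun F => s(5, 6) ∈ F) (fun _ => Classical.propDecidable _) S =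
          S.filter (fun F => s(5, 6) ∈ F) := fun S => by congr
    simp only [show 7 - 1 = 6 from rfl, show 7 - (1 + 1) = 5 from rfl]
    convert (by norm_num : ((32 : ℕ) : ℚ) / (112 : ℕ) < ((80 : ℕ) : ℚ) / (272 : ℕ)) using 3
    · rw [← a.2]; congr
    · exact a.1
    · rw [← b.2]; congr
    · exact b.1

end Pool.Agent.Results.MP_bb4aa0_pr.Book5
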